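import Pool.Agent.W313.HB.Stm5
import Pool.Agent.W554.HB.Type
import Pool.Agent.W756.HB.Pertr

/-!
# Project HB (helper313), part PERTP
-/

set_option autoImplicit false

namespace Pool.Agent.W240.HB.PERTP

open Pool.Agent.W313.HB
open Pool.Agent.W313.BMX (Splits)

variable {p : ℕ} [hp : Fact p.Prime]

theorem cont_aeval {n : ℕ} (P : MvPolynomial (Fin (n + 1)) ℤ) :
    Continuous (fun x : Fin (n + 1) → ℚ_[p] => MvPolynomial.aeval x P) := by
  simp_rw [Pool.Agent.W756.HB.aeval_eval]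
  exact MvPolynomial.continuous_eval _

theorem ball_infinite (x : ℚ_[p]) {ε : ℝ} (hε : 0 < ε) : (Metric.ball x ε).Infinite := by
  have h1 : Metric.ball x ε ∈ nhds x := Metric.ball_mem_nhds x hε
  exact infinite_of_mem_nhds x h1

theorem exists_near {n : ℕ} (A : MvPolynomial (Fin (n + 1)) ℤ) (hA : A ≠ 0)
    (U : Set (Fin (n + 1) → ℚ_[p])) (hU : IsOpen U) (hne : U.Nonempty) :
    ∃ x ∈ U, MvPolynomial.aeval x A ≠ 0 := by
  obtain ⟨x, hx⟩ := hne
  obtain ⟨ε, hε, hb⟩ := Metric.isOpen_iff.1 hU x hx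
  by_contra hcon
  push Not at hcon
  have h0 : MvPolynomial.map (Int.castRingHom ℚ_[p]) A = 0 := by
    refine MvPolynomial.funext_set (fun i => Metric.ball (x i) ε) (fun i => ?_) (fun y hy => ?_)
    · exact ball_infinite _ hε
    · rw [← Pool.Agent.W756.HB.aeval_eval, map_zero]
      apply hcon
      apply hb
      rw [ball_pi x hε]
      exact hy
  apply hA
  apply MvPolynomial.map_injective (Int.castRingHom ℚ_[p]) (by exact Int.cast_injective)
  rw [h0, map_zero]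

theorem pertp_ : S_PERTP := by
  intro n A B D hA a ha p hp Ω hΩ hpt
  obtain ⟨x, hx, hΔ, u, v, w, hne, heq⟩ := hpt
  have haR : (a : ℚ_[p]) ≠ 0 := by exact_mod_cast ha
  have hev : ∀ y : Fin (n + 1) → ℚ_[p], MvPolynomial.aeval y (B ^ 2 - A * (4 * D)) =
      MvPolynomial.aeval y B ^ 2 - MvPolynomial.aeval y A * (4 * MvPolynomial.aeval y D) := by
    intro y
    simp [map_sub, map_mul, map_pow]
  have hev2 : MvPolynomial.aeval x (B ^ 2 - 4 * A * D) =
      MvPolynomial.aeval x B ^ 2 - MvPolynomial.aeval x A * (4 * MvPolynomial.aeval x D) := by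
    simp only [map_sub, map_mul, map_pow, map_ofNat]
    ring
  by_cases hA0 : MvPolynomial.aeval x A = 0
  · set b : ℚ_[p] := MvPolynomial.aeval x B with hb
    have hxv : MvPolynomial.aeval x (B ^ 2 - A * (4 * D)) = b ^ 2 := by
      rw [hev x, hA0, zero_mul, sub_zero]
    have hb0 : b ^ 2 ≠ 0 := by
      rw [← hxv, hev x, ← hev2]; exact hΔ
    have h4 : (0 : ℝ) < ‖(4 : ℚ_[p])‖ * ‖b ^ 2‖ := by
      apply mul_pos (norm_pos_iff.2 _) (norm_pos_iff.2 hb0)
      norm_num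
    obtain ⟨y, hy, hyA⟩ := exists_near A hA
      (Ω ∩ {y | ‖MvPolynomial.aeval y (B ^ 2 - A * (4 * D)) - b ^ 2‖ < ‖(4 : ℚ_[p])‖ * ‖b ^ 2‖})
      (hΩ.inter (isOpen_lt ((cont_aeval _).sub continuous_const).norm continuous_const))
      ⟨x, hx, by
        show ‖MvPolynomial.aeval x (B ^ 2 - A * (4 * D)) - b ^ 2‖ < ‖(4 : ℚ_[p])‖ * ‖b ^ 2‖
        rw [hxv, sub_self, norm_zero]
        exact h4⟩
    obtain ⟨c, hc, hc2⟩ := Pool.Agent.W554.HB.near hb0 hy.2
    have hb1 : b ≠ 0 := fun h => hb0 (by rw [h]; ring)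
    refine ⟨y, hy.1, hyA, ?_, 0, 1, b * c, Or.inr (Or.inl one_ne_zero), ?_⟩
    · rw [hc2]
      exact mul_ne_zero hb0 (pow_ne_zero 2 hc)
    · rw [hc2]
      push_cast
      ring
  · refine ⟨x, hx, hA0, ?_, ?_⟩
    · rw [hev x, ← hev2]; exact hΔ
    · rw [hev x]
      have := Pool.Agent.W756.HB.splits_ne hA0 haR hne heq
      simpa using this

end Pool.Agent.W240.HB.PERTP
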